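import Pool.Agent.H295R2.WM7

set_option autoImplicit false

open MeasureTheory Filter Topology Set

namespace TH223.L1

open Pool.Agent.H295R2

noncomputable section

/-- `∫_A^L |M(e^s)| e^{-s/2} ds` -/
def JL (A L : ℝ) : ℝ := ∫ s in Ioc A L, |Mx (Real.exp s)| * Real.exp (-(s / 2))

lemma JL_int {A L : ℝ} (hA : 0 ≤ A) :
    IntegrableOn (fun s : ℝ => |Mx (Real.exp s)| * Real.exp (-(s / 2))) (Ioc A L) := by
  have h0 : IntegrableOn (fun s => ‖mf (1 / 2) s‖) (Ioc 0 L) :=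
    (mf_iOn (ρ := 1 / 2) (by norm_num) L).norm
  have h : IntegrableOn (fun s => ‖mf (1 / 2) s‖) (Ioc A L) := h0.mono_set (Ioc_subset_Ioc_left hA)
  refine h.congr (Eventually.of_forall fun s => ?_)
  simp only
  rw [norm_mf]
  have : ((1:ℂ) / 2).re = 1 / 2 := by norm_num
  rw [this]; ring_nf

lemma JL_nonneg (A L : ℝ) : 0 ≤ JL A L := integral_nonneg fun s => by positivity

lemma JL_mono {A A' L L' : ℝ} (hA : 0 ≤ A) (h1 : A ≤ A') (h2 : L' ≤ L) : JL A' L' ≤ JL A L :=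
  setIntegral_mono_set (JL_int hA) (Eventually.of_forall fun _ => by positivity)
    (Eventually.of_forall (Ioc_subset_Ioc h1 h2))

lemma JL_add {a b c : ℝ} (ha : 0 ≤ a) (hab : a ≤ b) (hbc : b ≤ c) : JL a b + JL b c = JL a c := by
  unfold JL
  rw [← Ioc_union_Ioc_eq_Ioc hab hbc, setIntegral_union (Ioc_disjoint_Ioc_of_le le_rfl) measurableSet_Ioc
      (JL_int ha) (JL_int (ha.trans hab))]

lemma AL_nonneg (L : ℝ) : 0 ≤ AL L := integral_nonneg fun s => abs_nonneg _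

lemma AL_step {A y : ℝ} (hA : 0 ≤ A) (hAy : A ≤ y) : AL y ≤ AL A + Real.exp (y / 2) * JL A y := by
  have h1 : AL y = AL A + ∫ s in Ioc A y, |Mx (Real.exp s)| := by
    unfold AL
    rw [← Ioc_union_Ioc_eq_Ioc hA hAy, setIntegral_union (Ioc_disjoint_Ioc_of_le le_rfl) measurableSet_Ioc
      (abs_Mx_integrable A) ((abs_Mx_integrable y).mono_set (Ioc_subset_Ioc_left hA))]
  have h2 : ∫ s in Ioc A y, |Mx (Real.exp s)| ≤ Real.exp (y / 2) * JL A y := by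
    unfold JL
    rw [← integral_const_mul]
    refine setIntegral_mono_on ((abs_Mx_integrable y).mono_set (Ioc_subset_Ioc_left hA))
      ((JL_int hA).const_mul _) measurableSet_Ioc fun s hs => ?_
    have h3 : 1 ≤ Real.exp (y / 2) * Real.exp (-(s / 2)) := by
      rw [← Real.exp_add]
      exact Real.one_le_exp (by linarith [hs.2])
    have h4 := abs_nonneg (Mx (Real.exp s))
    calc |Mx (Real.exp s)| = |Mx (Real.exp s)| * 1 := (mul_one _).symm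
      _ ≤ |Mx (Real.exp s)| * (Real.exp (y / 2) * Real.exp (-(s / 2))) := by gcongr
      _ = _ := by ring
  linarith

/-- `e^{-y/2} ∫_0^y |M(e^s)| ds` -/
def gg (y : ℝ) : ℝ := Real.exp (-(1 / 2 * y)) * AL y

lemma gg_nonneg (y : ℝ) : 0 ≤ gg y := mul_nonneg (Real.exp_pos _).le (AL_nonneg y)

lemma gg_step {A y : ℝ} (hA : 0 ≤ A) (hAy : A ≤ y) :
    gg y ≤ Real.exp (-(1 / 2 * (y - A))) * gg A + JL A y := by
  have h1 := AL_step hA hAy
  unfold gg
  have e1 : Real.exp (-(1 / 2 * (y - A))) * (Real.exp (-(1 / 2 * A)) * AL A) = Real.exp (-(1 / 2 * y)) * AL A := by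
    rw [← mul_assoc, ← Real.exp_add]; ring_nf
  have e2 : Real.exp (-(1 / 2 * y)) * (Real.exp (y / 2) * JL A y) = JL A y := by
    rw [← mul_assoc, ← Real.exp_add]
    have : -(1 / 2 * y) + y / 2 = 0 := by ring
    rw [this, Real.exp_zero, one_mul]
  rw [e1]
  calc Real.exp (-(1 / 2 * y)) * AL y ≤ Real.exp (-(1 / 2 * y)) * (AL A + Real.exp (y / 2) * JL A y) := by gcongr
    _ = Real.exp (-(1 / 2 * y)) * AL A + Real.exp (-(1 / 2 * y)) * (Real.exp (y / 2) * JL A y) := by ring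
    _ = _ := by rw [e2]

lemma AL_A {CM σ : ℝ} (hCM : ∀ y : ℝ, 1 ≤ y → |Mx y| ≤ CM * y ^ σ) (hC0 : 0 < CM) (hσ : 0 < σ)
    {A : ℝ} (hA : 0 ≤ A) : AL A ≤ CM / σ * Real.exp (σ * A) := by
  have h := AL_split hCM hC0 hσ hA le_rfl
  have h2 : JW A A = 0 := by unfold JW; simp
  rw [h2] at h
  simpa using h

/-- RH from the `L¹` window hypothesis -/
theorem L1_RH {δ : ℝ} (hδ : 0 < δ) (hδ1 : δ ≤ 1) {C : ℝ}
    (hf : ∃ᶠ L in atTop, JL ((1 - δ) * L) L ≤ C * L) : zetaSup ≤ 1 / 2 := by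
  by_contra hcon
  push Not at hcon
  have hone := zetaSup_le_one
  set Θ := zetaSup with hΘ
  set κ : ℝ := min (Θ - 1 / 2) (δ / 8) with hκ
  have hκ0 : 0 < κ := lt_min (by linarith) (by positivity)
  have hκ1 : κ ≤ Θ - 1 / 2 := min_le_left _ _
  have hκ2 : κ ≤ δ / 8 := min_le_right _ _
  obtain ⟨ρ, hρ, hρz⟩ := zetaSup_sup κ hκ0
  obtain ⟨hz, hpos, hlt⟩ := zeta_of_Zs hρz (by linarith)
  obtain ⟨CM, hCM0, hCM⟩ := mertens_bound (θ := Θ) (σ := Θ + κ)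
    (by linarith) zetaSup_free (by linarith) (by linarith)
  obtain ⟨K, hK, hKb⟩ := Cv_le_AL hpos hlt hz
  obtain ⟨t₀, ht₀⟩ := Cv_lower (by linarith : 1 / 4 < ρ.re) hlt
  have hc := norm_pos_iff.2 (c0_ne hpos hlt)
  have hσ0 : 0 < Θ + κ := by linarith
  have hexp : (Θ + κ) * (1 - δ) - ρ.re ≤ -(δ / 4) := by nlinarith
  have hlim : Tendsto (fun L : ℝ => K * (CM / (Θ + κ)) * Real.exp (-(δ / 4 * L))) atTop (𝓝 0) := by
    have h2 : Tendsto (fun t : ℝ => δ / 4 * t) atTop atTop :=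
      Tendsto.const_mul_atTop (by linarith) tendsto_id
    have := (Real.tendsto_exp_neg_atTop_nhds_zero.comp h2).const_mul (K * (CM / (Θ + κ)))
    simpa using this
  have hev := hlim.eventually (gt_mem_nhds (show 0 < ‖c0 ρ‖ / 4 by positivity))
  have hβ : 0 < ρ.re - 1 / 2 := by linarith
  have hlim2 : Tendsto (fun L : ℝ => K * (|C| * L * Real.exp (-((ρ.re - 1 / 2) * L)))) atTop (𝓝 0) := by
    have h3 : Tendsto (fun L : ℝ => L ^ (1:ℝ) * Real.exp (-(ρ.re - 1 / 2) * L)) atTop (𝓝 0) :=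
      tendsto_rpow_mul_exp_neg_mul_atTop_nhds_zero 1 (ρ.re - 1 / 2) hβ
    have h4 := h3.const_mul (K * |C|)
    rw [mul_zero] at h4
    refine h4.congr fun L => ?_
    rw [Real.rpow_one]
    have : -((ρ.re - 1 / 2) * L) = -(ρ.re - 1 / 2) * L := by ring
    rw [this]; ring
  have hev2 := hlim2.eventually (gt_mem_nhds (show 0 < ‖c0 ρ‖ / 4 by positivity))
  obtain ⟨L, h1, ⟨⟨h2, h3⟩, h4⟩, h5⟩ := (hf.and_eventually (((hev.and hev2).and (eventually_ge_atTop t₀)).and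
    (eventually_gt_atTop 0))).exists
  have hA : 0 ≤ (1 - δ) * L := by nlinarith
  have hAL : (1 - δ) * L ≤ L := by nlinarith
  have h6 := AL_step hA hAL
  have h6' := AL_A hCM hCM0 hσ0 hA
  have h7 := (ht₀ L h4).trans (hKb L)
  have h8 : JL ((1 - δ) * L) L ≤ |C| * L := h1.trans (by have := le_abs_self C; nlinarith)
  have h9 : K * Real.exp (-(ρ.re * L)) * AL L ≤ K * (CM / (Θ + κ)) * Real.exp (-(δ / 4 * L)) +
      K * (|C| * L * Real.exp (-((ρ.re - 1 / 2) * L))) := by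
    calc K * Real.exp (-(ρ.re * L)) * AL L
        ≤ K * Real.exp (-(ρ.re * L)) * (CM / (Θ + κ) * Real.exp ((Θ + κ) * ((1 - δ) * L)) +
          Real.exp (L / 2) * (|C| * L)) := by
          gcongr
          exact h6.trans (by gcongr)
      _ = K * (CM / (Θ + κ)) * (Real.exp (-(ρ.re * L)) * Real.exp ((Θ + κ) * ((1 - δ) * L))) +
          K * (|C| * L * (Real.exp (-(ρ.re * L)) * Real.exp (L / 2))) := by ring
      _ ≤ _ := by
          rw [← Real.exp_add, ← Real.exp_add]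
          have e1 : -(ρ.re * L) + (Θ + κ) * ((1 - δ) * L) ≤ -(δ / 4 * L) := by nlinarith
          have e2 : -(ρ.re * L) + L / 2 = -((ρ.re - 1 / 2) * L) := by ring
          rw [e2]
          gcongr
  linarith

/-- the local control, under RH -/
lemma W2' (hRH : zetaSup ≤ 1 / 2) {δ η : ℝ} (hδ1 : δ ≤ 1) (hη : 0 < η) (hηδ : η ≤ δ) :
    ∃ D : ℝ, 0 < D ∧ ∀ L : ℝ, 0 ≤ L → ∀ y : ℝ, (1 - δ + η) * L ≤ y → y ≤ L →
      gg y ≤ D + JL ((1 - δ) * L) L := by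
  have hη1 : η ≤ 1 := hηδ.trans hδ1
  obtain ⟨CM, hCM0, hCM⟩ := mertens_bound (θ := 1 / 2) (σ := 1 / 2 + η / 2) (by norm_num)
    (fun s hs => zetaSup_free s (by linarith)) (by linarith) (by linarith)
  have hσ : 0 < 1 / 2 + η / 2 := by linarith
  refine ⟨CM / (1 / 2 + η / 2), by positivity, fun L hL y hy1 hy2 => ?_⟩
  have hA : 0 ≤ (1 - δ) * L := by nlinarith
  have hAy : (1 - δ) * L ≤ y := by nlinarith
  have h1 := gg_step hA hAy
  have h2 : JL ((1 - δ) * L) y ≤ JL ((1 - δ) * L) L := JL_mono hA le_rfl hy2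
  have h3 := AL_A hCM hCM0 hσ hA
  have h4 : 0 < CM / (1 / 2 + η / 2) := by positivity
  have h5 : Real.exp (-(1 / 2 * (y - (1 - δ) * L))) * gg ((1 - δ) * L) ≤ CM / (1 / 2 + η / 2) := by
    unfold gg
    calc Real.exp (-(1 / 2 * (y - (1 - δ) * L))) * (Real.exp (-(1 / 2 * ((1 - δ) * L))) * AL ((1 - δ) * L))
        ≤ Real.exp (-(1 / 2 * (y - (1 - δ) * L))) * (Real.exp (-(1 / 2 * ((1 - δ) * L))) *
          (CM / (1 / 2 + η / 2) * Real.exp ((1 / 2 + η / 2) * ((1 - δ) * L)))) := by gcongr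
      _ = CM / (1 / 2 + η / 2) * (Real.exp (-(1 / 2 * (y - (1 - δ) * L))) * (Real.exp (-(1 / 2 * ((1 - δ) * L))) *
          Real.exp ((1 / 2 + η / 2) * ((1 - δ) * L)))) := by ring
      _ ≤ CM / (1 / 2 + η / 2) * 1 := by
        rw [← Real.exp_add, ← Real.exp_add]
        gcongr
        apply Real.exp_le_one_iff.2
        nlinarith [mul_nonneg hη.le hL, mul_nonneg (mul_nonneg hη.le hL) (by linarith : 0 ≤ δ)]
      _ = _ := mul_one _
  linarith

lemma PP_JL {ρ : ℂ} (h0 : ρ.re = 1 / 2) {A L : ℝ} (hA : 0 ≤ A) (hAL : A ≤ L) :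
    ‖PP ρ L - PP ρ A‖ ≤ JL A L := by
  rw [PP_sub (by rw [h0]; norm_num) hA hAL]
  refine (norm_integral_le_integral_norm _).trans (le_of_eq ?_)
  unfold JL
  refine integral_congr_ae (Eventually.of_forall fun s => ?_)
  simp only
  rw [norm_mf, h0]; ring_nf

/-- no double zero, from the `L¹` window hypothesis -/
theorem L1_simple (hRH : zetaSup ≤ 1 / 2) {δ : ℝ} (hδ : 0 < δ) (hδ1 : δ ≤ 1) {C : ℝ}
    (hf : ∃ᶠ L in atTop, JL ((1 - δ) * L) L ≤ C * L) {ρ : ℂ} (hρ : ρ.re = 1 / 2) (hz : riemannZeta ρ = 0) :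
    deriv riemannZeta ρ ≠ 0 := by
  intro hd
  have hmom : ∀ j < 1, mom ρ j = 0 := mom_zero (by linarith) (by linarith) (p := 1) (by
    intro j hj
    interval_cases j
    · simpa using hz
    · simpa using hd)
  obtain ⟨K, hK, hP⟩ := PPgen (by linarith : 1 / 4 < ρ.re) (by linarith) hz hmom
  obtain ⟨D, hD, hW⟩ := W2' hRH hδ1 (half_pos hδ) (by linarith : δ / 2 ≤ δ)
  have hc := norm_pos_iff.2 (c0_ne (by linarith : 0 < ρ.re) (by linarith : ρ.re < 1))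
  set M1 : ℝ := ‖mom ρ 1‖ with hM1
  have hM1' : 0 ≤ M1 := norm_nonneg _
  set B : ℝ := M1 * |C| + 2 * K * (1 + D + |C|) with hB
  have hlim : Tendsto (fun L : ℝ => B * L⁻¹) atTop (𝓝 0) := by
    simpa using tendsto_inv_atTop_zero.const_mul B
  have hgap : 0 < ‖c0 ρ‖ * (δ / 4) := by positivity
  have hev := hlim.eventually (gt_mem_nhds hgap)
  obtain ⟨L, h1, h2, h3⟩ := (hf.and_eventually (hev.and (eventually_gt_atTop 1))).exists
  have hL0 : 0 < L := by linarith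
  set A : ℝ := (1 - δ + δ / 2) * L with hA
  have hA0 : 0 ≤ A := by rw [hA]; nlinarith
  have hAL : A ≤ L := by rw [hA]; nlinarith
  have hJ : JL ((1 - δ) * L) L ≤ |C| * L := h1.trans (by have := le_abs_self C; nlinarith)
  have b1 := hP L hL0.le
  have b2 := hP A hA0
  have w1 := hW L hL0.le L hAL le_rfl
  have w2 := hW L hL0.le A le_rfl hAL
  unfold gg at w1 w2
  rw [hρ] at b1 b2
  have c1 : K * (L ^ 1 + Real.exp (-(1 / 2 * L)) * AL L) ≤ K * ((1 + D + |C|) * L) := by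
    rw [pow_one]
    refine mul_le_mul_of_nonneg_left ?_ hK.le
    nlinarith
  have c2 : K * (A ^ 1 + Real.exp (-(1 / 2 * A)) * AL A) ≤ K * ((1 + D + |C|) * L) := by
    rw [pow_one]
    refine mul_le_mul_of_nonneg_left ?_ hK.le
    nlinarith
  have hPPA : ‖PP ρ L - PP ρ A‖ ≤ |C| * L :=
    (PP_JL hρ hA0 hAL).trans ((JL_mono (by nlinarith) (by rw [hA]; nlinarith) le_rfl).trans hJ)
  have e1 : c0 ρ * (((L ^ 2 - A ^ 2) / 2 : ℝ) : ℂ) = (-1) ^ 1 * mom ρ 1 * (PP ρ L - PP ρ A) -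
      (((-1) ^ 1 * mom ρ 1 * PP ρ L - c0 ρ * ((L ^ (1 + 1) / ((1:ℕ) + 1) : ℝ) : ℂ)) -
       ((-1) ^ 1 * mom ρ 1 * PP ρ A - c0 ρ * ((A ^ (1 + 1) / ((1:ℕ) + 1) : ℝ) : ℂ))) := by
    push_cast; ring
  have e2 : ‖c0 ρ * (((L ^ 2 - A ^ 2) / 2 : ℝ) : ℂ)‖ ≤ B * L := by
    rw [e1]
    refine (norm_sub_le _ _).trans ?_
    have f1 : ‖(-1) ^ 1 * mom ρ 1 * (PP ρ L - PP ρ A)‖ ≤ M1 * (|C| * L) := by
      rw [norm_mul, norm_mul, norm_pow, norm_neg, norm_one, one_pow, one_mul]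
      gcongr
    have f2 := norm_sub_le ((-1) ^ 1 * mom ρ 1 * PP ρ L - c0 ρ * ((L ^ (1 + 1) / ((1:ℕ) + 1) : ℝ) : ℂ))
       ((-1) ^ 1 * mom ρ 1 * PP ρ A - c0 ρ * ((A ^ (1 + 1) / ((1:ℕ) + 1) : ℝ) : ℂ))
    have f3 := b1.trans c1
    have f4 := b2.trans c2
    calc _ ≤ M1 * (|C| * L) + (K * ((1 + D + |C|) * L) + K * ((1 + D + |C|) * L)) :=
          add_le_add f1 (f2.trans (add_le_add f3 f4))
      _ = B * L := by rw [hB]; ring
  have hsq : A ^ 2 ≤ (1 - δ / 2) * L ^ 2 := by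
    rw [hA, mul_pow]
    have : (1 - δ + δ / 2) ^ 2 ≤ 1 - δ / 2 := by nlinarith
    have hL2 : 0 ≤ L ^ 2 := by positivity
    nlinarith
  have e3 : ‖c0 ρ‖ * (δ / 4) * L ^ 2 ≤ ‖c0 ρ * (((L ^ 2 - A ^ 2) / 2 : ℝ) : ℂ)‖ := by
    rw [norm_mul, Complex.norm_real, Real.norm_of_nonneg (by nlinarith), mul_assoc]
    gcongr
    nlinarith
  rw [← div_eq_mul_inv, div_lt_iff₀ hL0] at h2
  nlinarith

end

end TH223.L1
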