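import Pool.Agent.TH223.L1.A

set_option autoImplicit false

open MeasureTheory Filter Topology Set

namespace TH223.L1

open Pool.Agent.H295R2

noncomputable section

lemma JL_sum {a h : ℝ} (ha : 0 ≤ a) (hh : 0 ≤ h) (n : ℕ) :
    ∑ k ∈ Finset.range n, JL (a + k * h) (a + (k + 1) * h) = JL a (a + n * h) := by
  induction n with
  | zero => simp [JL]
  | succ n ih =>
    rw [Finset.sum_range_succ, ih]
    have hn : (0:ℝ) ≤ n := Nat.cast_nonneg n
    have := JL_add (a := a) (b := a + n * h) (c := a + (n + 1) * h) ha (by nlinarith [mul_nonneg hn hh]) (by nlinarith)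
    push_cast
    exact this

/-- pigeonhole -/
lemma pick {a b : ℝ} (ha : 0 ≤ a) (hab : a ≤ b) (n : ℕ) (hn : 0 < n) :
    ∃ x y : ℝ, a ≤ x ∧ y ≤ b ∧ y = x + (b - a) / n ∧ JL x y ≤ JL a b / n := by
  have hn0 : (0:ℝ) < n := by exact_mod_cast hn
  set h : ℝ := (b - a) / n with hh
  have hh0 : 0 ≤ h := div_nonneg (by linarith) hn0.le
  have hs := JL_sum ha hh0 n
  have hb : a + n * h = b := by rw [hh]; field_simp; ring
  rw [hb] at hs
  have hle : ∑ k ∈ Finset.range n, JL (a + k * h) (a + (k + 1) * h) ≤ ∑ _k ∈ Finset.range n, JL a b / n := by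
    rw [hs, Finset.sum_const, Finset.card_range, nsmul_eq_mul]
    exact le_of_eq (by field_simp)
  obtain ⟨k, hk, hk2⟩ := Finset.exists_le_of_sum_le (Finset.nonempty_range_iff.2 hn.ne') hle
  rw [Finset.mem_range] at hk
  have hk' : (k:ℝ) + 1 ≤ n := by exact_mod_cast hk
  have hk0 : (0:ℝ) ≤ k := Nat.cast_nonneg k
  refine ⟨a + k * h, a + (k + 1) * h, by nlinarith [mul_nonneg hk0 hh0], ?_, by ring, hk2⟩
  rw [← hb]
  nlinarith [mul_le_mul_of_nonneg_right hk' hh0]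

/-- good points in every subwindow -/
lemma good (hRH : zetaSup ≤ 1 / 2) {δ η : ℝ} (hδ1 : δ ≤ 1) (hη : 0 < η) (hηδ : η ≤ δ) {C ε : ℝ} (hε : 0 < ε) :
    ∀ᶠ L : ℝ in atTop, JL ((1 - δ) * L) L ≤ C * L → ∀ θ : ℝ, 1 - δ + η ≤ θ → θ + η ≤ 1 →
      ∃ y : ℝ, θ * L ≤ y ∧ y ≤ (θ + η) * L ∧ gg y ≤ ε * L := by
  obtain ⟨D, hD, hW⟩ := W2' hRH hδ1 hη hηδ
  obtain ⟨n, hn⟩ := exists_nat_gt (2 * |C| / ε)
  have hn0 : (0:ℝ) < n := lt_of_le_of_lt (by positivity) hn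
  have hn1 : 0 < n := by exact_mod_cast hn0
  rw [div_lt_iff₀ hε] at hn
  have hlim : Tendsto (fun L : ℝ => (D + |C|) * Real.exp (-(η / (2 * n) * L))) atTop (𝓝 0) := by
    have h2 : Tendsto (fun t : ℝ => η / (2 * n) * t) atTop atTop :=
      Tendsto.const_mul_atTop (by positivity) tendsto_id
    have := (Real.tendsto_exp_neg_atTop_nhds_zero.comp h2).const_mul (D + |C|)
    simpa using this
  filter_upwards [hlim.eventually (gt_mem_nhds (show 0 < ε / 2 by positivity)), eventually_ge_atTop 1] with L h1 h2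
  intro hJ θ hθ1 hθ2
  have hL0 : 0 < L := by linarith
  have hθ0 : 0 ≤ θ := by linarith
  have hJ' : JL ((1 - δ) * L) L ≤ |C| * L := hJ.trans (by have := le_abs_self C; nlinarith)
  have ha : 0 ≤ θ * L := by positivity
  have hab : θ * L ≤ (θ + η) * L := by nlinarith
  obtain ⟨x, y, hx, hy, hxy, hJxy⟩ := pick ha hab n hn1
  have hlen : ((θ + η) * L - θ * L) / n = η / n * L := by field_simp; ring
  rw [hlen] at hxy
  have hηn : 0 ≤ η / n * L := by positivity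
  have hxy' : x ≤ y := by linarith
  refine ⟨y, by linarith, hy, ?_⟩
  have g1 := gg_step (ha.trans hx) hxy'
  have hyL : y ≤ L := hy.trans (by nlinarith)
  have g2 := hW L hL0.le x (by nlinarith) (by linarith)
  have g3 : JL x y ≤ ε / 2 * L := by
    refine hJxy.trans ?_
    have : JL (θ * L) ((θ + η) * L) ≤ |C| * L := (JL_mono (by nlinarith) (by nlinarith) (by nlinarith)).trans hJ'
    rw [div_le_iff₀ hn0]
    nlinarith
  have g4 : Real.exp (-(1 / 2 * (y - x))) * gg x ≤ ε / 2 * L := by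
    have e : -(1 / 2 * (y - x)) = -(η / (2 * n) * L) := by rw [hxy]; field_simp; ring
    rw [e]
    have hx2 : gg x ≤ (D + |C|) * L := by nlinarith
    calc Real.exp (-(η / (2 * n) * L)) * gg x ≤ Real.exp (-(η / (2 * n) * L)) * ((D + |C|) * L) := by gcongr
      _ = ((D + |C|) * Real.exp (-(η / (2 * n) * L))) * L := by ring
      _ ≤ ε / 2 * L := by gcongr
  linarith

/-- normalised coefficient -/
lemma PP_gg {ρ : ℂ} (h : ρ.re = 1 / 2) (hz : riemannZeta ρ = 0) (hd : deriv riemannZeta ρ ≠ 0) :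
    ∃ C : ℝ, 0 < C ∧ ∀ L : ℝ, 0 ≤ L → ‖PP ρ L - ww ρ * L‖ ≤ C * (1 + gg L) := by
  obtain ⟨C, hC, hP⟩ := PPgen (p := 0) (by linarith : 1 / 4 < ρ.re) (by linarith) hz (by intro j hj; omega)
  have hd0 := norm_pos_iff.2 hd
  have hq := two_pow_ne (by linarith : ρ.re < 1)
  have hq0 : 0 < ‖(1:ℂ) - (2:ℂ) ^ (1 - ρ)‖ := norm_pos_iff.2 hq
  have hρ0 : ρ ≠ 0 := by rintro rfl; norm_num at h
  refine ⟨C / (‖(1:ℂ) - (2:ℂ) ^ (1 - ρ)‖ * ‖deriv riemannZeta ρ‖), by positivity, fun L hL => ?_⟩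
  have b1 := hP L hL
  rw [h] at b1
  simp only [pow_zero, one_mul, zero_add, pow_one, Nat.cast_zero, div_one] at b1
  have hmom := mom_zeroth (by linarith : 0 < ρ.re) (by linarith) hz
  have e1 : (1 - (2:ℂ) ^ (1 - ρ)) * deriv riemannZeta ρ * (PP ρ L - ww ρ * L) = mom ρ 0 * PP ρ L - c0 ρ * (L : ℂ) := by
    rw [hmom]; unfold c0 ww; field_simp
  rw [← e1, norm_mul, norm_mul] at b1
  rw [div_mul_eq_mul_div, le_div_iff₀ (by positivity)]
  unfold gg
  linarith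

lemma sum_PP (Z : Finset ℂ) (hZ : ∀ ρ ∈ Z, ρ.re = 1 / 2) (a : ℂ → ℂ) {S : ℝ}
    (hS : ∀ v : ℝ, ‖∑ ρ ∈ Z, a ρ * Complex.exp (-(ρ.im * v * Complex.I))‖ ≤ S) {A L : ℝ} (hA : 0 ≤ A) (hAL : A ≤ L) :
    ‖∑ ρ ∈ Z, a ρ * (PP ρ L - PP ρ A)‖ ≤ S * JL A L := by
  have e : ∑ ρ ∈ Z, a ρ * (PP ρ L - PP ρ A) = ∫ s in Ioc A L, ∑ ρ ∈ Z, a ρ * mf ρ s := by
    rw [integral_finsetSum]
    · refine Finset.sum_congr rfl fun ρ hρ => ?_
      rw [integral_const_mul, PP_sub (by rw [hZ ρ hρ]; norm_num) hA hAL]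
    · exact fun ρ hρ => ((mf_iOn (by rw [hZ ρ hρ]; norm_num) L).mono_set (Ioc_subset_Ioc_left hA)).const_mul _
  rw [e]
  unfold JL
  rw [← integral_const_mul]
  refine norm_integral_le_of_norm_le ((JL_int hA).const_mul _) (Eventually.of_forall fun s => ?_)
  have e2 : ∑ ρ ∈ Z, a ρ * mf ρ s = m0 s * ∑ ρ ∈ Z, a ρ * Complex.exp (-(ρ.im * s * Complex.I)) := by
    rw [Finset.mul_sum]
    refine Finset.sum_congr rfl fun ρ hρ => ?_
    rw [← m0_mul (hZ ρ hρ) s]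
    have e3 : (starRingEnd ℂ) (ee ρ s) = Complex.exp (-(ρ.im * s * Complex.I)) := by
      unfold ee
      rw [← Complex.exp_conj]
      congr 1
      apply Complex.ext
      · simp [hZ ρ hρ]
      · simp
    rw [e3]; ring
  rw [e2, norm_mul]
  have e4 : ‖m0 s‖ = |Mx (Real.exp s)| * Real.exp (-(s / 2)) := by
    unfold m0
    rw [Complex.norm_real, Real.norm_eq_abs, abs_mul, abs_of_pos (Real.exp_pos _)]
  rw [e4, mul_comm S]
  exact mul_le_mul_of_nonneg_left (hS s) (by positivity)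

/-- the bound for finite sums over zeros -/
theorem L1_bound (hRH : zetaSup ≤ 1 / 2) {δ : ℝ} (hδ : 0 < δ) (hδ1 : δ ≤ 1) {C : ℝ}
    (hf : ∃ᶠ L in atTop, JL ((1 - δ) * L) L ≤ C * L) (Z : Finset ℂ)
    (hZ : ∀ ρ ∈ Z, ρ.re = 1 / 2 ∧ riemannZeta ρ = 0 ∧ deriv riemannZeta ρ ≠ 0) (a : ℂ → ℂ) {S : ℝ}
    (hS : ∀ v : ℝ, ‖∑ ρ ∈ Z, a ρ * Complex.exp (-(ρ.im * v * Complex.I))‖ ≤ S) :
    ‖∑ ρ ∈ Z, a ρ * ww ρ‖ ≤ C / δ * S := by
  classical
  have hS0 : 0 ≤ S := (norm_nonneg _).trans (hS 0)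
  choose! Kf hKf hKb using fun ρ (h : ρ.re = 1 / 2 ∧ riemannZeta ρ = 0 ∧ deriv riemannZeta ρ ≠ 0) =>
    PP_gg h.1 h.2.1 h.2.2
  set K : ℝ := ∑ ρ ∈ Z, ‖a ρ‖ * |Kf ρ| with hK
  have hK0 : 0 ≤ K := Finset.sum_nonneg fun _ _ => by positivity
  set T : ℝ := ‖∑ ρ ∈ Z, a ρ * ww ρ‖ with hT
  have hT0 : 0 ≤ T := norm_nonneg _
  rw [div_mul_eq_mul_div, le_div_iff₀ hδ]
  by_contra hcon
  push Not at hcon
  set G : ℝ := T * δ - C * S with hG
  have hG0 : 0 < G := by linarith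
  -- η
  set η : ℝ := min (δ / 8) (G / (12 * (T + 1))) with hη
  have hη0 : 0 < η := lt_min (by positivity) (by positivity)
  have hη1 : η ≤ δ / 8 := min_le_left _ _
  have hη2 : 3 * η * T ≤ G / 4 := by
    have h1 : η ≤ G / (12 * (T + 1)) := min_le_right _ _
    have h2 : η * (12 * (T + 1)) ≤ G := (le_div_iff₀ (by positivity)).1 h1
    nlinarith
  set ε : ℝ := G / (16 * (K + 1)) with hε
  have hε0 : 0 < ε := by positivity
  have hε1 : 2 * K * ε ≤ G / 4 := by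
    have h2 : ε * (16 * (K + 1)) = G := by rw [hε]; field_simp
    nlinarith
  have hgood := good hRH hδ1 hη0 (by linarith : η ≤ δ) (C := C) hε0
  have hlim : Tendsto (fun L : ℝ => 2 * K * L⁻¹) atTop (𝓝 0) := by
    simpa using tendsto_inv_atTop_zero.const_mul (2 * K)
  obtain ⟨L, h1, h2, h3, h4⟩ := (hf.and_eventually (hgood.and ((hlim.eventually (gt_mem_nhds (show 0 < G / 4 by positivity))).and
    (eventually_gt_atTop 1)))).exists
  have hL0 : 0 < L := by linarith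
  obtain ⟨x, hx1, hx2, hx3⟩ := h2 h1 (1 - δ + η) le_rfl (by linarith)
  obtain ⟨y, hy1, hy2, hy3⟩ := h2 h1 (1 - η) (by linarith) (by linarith)
  have hx0 : 0 ≤ x := le_trans (by have : 0 ≤ 1 - δ + η := by linarith
                                   positivity) hx1
  have hyL : y ≤ L := by nlinarith
  have hlen : (δ - 3 * η) * L ≤ y - x := by nlinarith
  have hxy : x ≤ y := by nlinarith
  have s1 := sum_PP Z (fun ρ hρ => (hZ ρ hρ).1) a hS hx0 hxy
  have s2 : JL x y ≤ C * L := (JL_mono (by nlinarith) (by nlinarith) hyL).trans h1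
  have e1 : (∑ ρ ∈ Z, a ρ * ww ρ) * ((y - x : ℝ) : ℂ) = (∑ ρ ∈ Z, a ρ * (PP ρ y - PP ρ x)) -
      ∑ ρ ∈ Z, a ρ * ((PP ρ y - ww ρ * y) - (PP ρ x - ww ρ * x)) := by
    rw [Finset.sum_mul, ← Finset.sum_sub_distrib]
    refine Finset.sum_congr rfl fun ρ _ => ?_
    push_cast; ring
  have e2 : ‖∑ ρ ∈ Z, a ρ * ((PP ρ y - ww ρ * y) - (PP ρ x - ww ρ * x))‖ ≤ K * (2 + 2 * ε * L) := by
    rw [hK, Finset.sum_mul]
    refine norm_sum_le_of_le _ fun ρ hρ => ?_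
    rw [norm_mul, mul_assoc]
    refine mul_le_mul_of_nonneg_left ?_ (norm_nonneg _)
    refine (norm_sub_le _ _).trans ?_
    have k1 := hKb ρ (hZ ρ hρ) y (hx0.trans hxy)
    have k2 := hKb ρ (hZ ρ hρ) x hx0
    have k3 := hKf ρ (hZ ρ hρ)
    rw [abs_of_pos k3]
    nlinarith
  have e3 : T * (y - x) ≤ S * (C * L) + K * (2 + 2 * ε * L) := by
    have : ‖(∑ ρ ∈ Z, a ρ * ww ρ) * ((y - x : ℝ) : ℂ)‖ = T * (y - x) := by
      rw [norm_mul, Complex.norm_real, Real.norm_of_nonneg (by linarith)]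
    rw [← this, e1]
    refine (norm_sub_le _ _).trans (add_le_add (s1.trans ?_) e2)
    gcongr
  have e4 : T * ((δ - 3 * η) * L) ≤ T * (y - x) := mul_le_mul_of_nonneg_left hlen hT0
  have e5 : 2 * K ≤ G / 4 * L := by
    rw [← div_eq_mul_inv, div_lt_iff₀ hL0] at h3
    linarith
  have e6 : (T * δ - 3 * η * T - S * C - 2 * K * ε) * L ≤ G / 4 * L := by nlinarith
  have e7 : T * δ - 3 * η * T - S * C - 2 * K * ε ≤ G / 4 := le_of_mul_le_mul_right e6 hL0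
  nlinarith

end

end TH223.L1
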