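import Pool.Agent.TH223.L1.B

set_option autoImplicit false

open MeasureTheory Filter Topology Set

namespace TH223.L1

open Pool.Agent.H295R2

noncomputable section

/-- the integral over the window `[x^{1-δ}, x]` -/
def IL (δ x : ℝ) : ℝ :=
  ∫ u in (x ^ (1 - δ))..x, |∑ n ∈ Finset.Icc 1 ⌊u⌋₊, ((ArithmeticFunction.moebius n : ℤ) : ℝ)| / (u * Real.sqrt u)

lemma IL_exp {A L : ℝ} (hAL : A ≤ L) :
    ∫ u in (Real.exp A)..(Real.exp L), |∑ n ∈ Finset.Icc 1 ⌊u⌋₊, ((ArithmeticFunction.moebius n : ℤ) : ℝ)| /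
      (u * Real.sqrt u) = JL A L := by
  rw [intervalIntegral.integral_of_le (Real.exp_le_exp.2 hAL)]
  have h := integral_image_eq_integral_abs_deriv_smul (s := Ioc A L) (f := Real.exp) (f' := Real.exp)
    measurableSet_Ioc (fun x _ => (Real.hasDerivAt_exp x).hasDerivWithinAt) (Real.exp_injective.injOn)
    (fun u => |∑ n ∈ Finset.Icc 1 ⌊u⌋₊, ((ArithmeticFunction.moebius n : ℤ) : ℝ)| / (u * Real.sqrt u))
  have himg : Real.exp '' Ioc A L = Ioc (Real.exp A) (Real.exp L) := by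
    ext y
    simp only [mem_image, mem_Ioc]
    constructor
    · rintro ⟨x, hx, rfl⟩
      exact ⟨Real.exp_lt_exp.2 hx.1, Real.exp_le_exp.2 hx.2⟩
    · intro hy
      have hy0 : 0 < y := (Real.exp_pos A).trans hy.1
      exact ⟨Real.log y, ⟨(Real.lt_log_iff_exp_lt hy0).2 hy.1, (Real.log_le_iff_le_exp hy0).2 hy.2⟩, Real.exp_log hy0⟩
  rw [himg] at h
  rw [h]
  unfold JL
  refine integral_congr_ae (Eventually.of_forall fun s => ?_)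
  simp only
  have e1 : (∑ n ∈ Finset.Icc 1 ⌊Real.exp s⌋₊, ((ArithmeticFunction.moebius n : ℤ) : ℝ)) = Mx (Real.exp s) := rfl
  have e2 : Real.sqrt (Real.exp s) = Real.exp (s / 2) := (Real.exp_half s).symm
  rw [e1, abs_of_pos (Real.exp_pos s), smul_eq_mul, Real.exp_neg, e2]
  have h1 := (Real.exp_pos s).ne'
  have h2 := (Real.exp_pos (s / 2)).ne'
  field_simp

lemma IL_eq {δ x : ℝ} (hδ : 0 ≤ δ) (hx : 1 ≤ x) : IL δ x = JL ((1 - δ) * Real.log x) (Real.log x) := by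
  have hlog := Real.log_nonneg hx
  rw [← IL_exp (by nlinarith), Real.exp_log (by linarith)]
  unfold IL
  have : Real.exp ((1 - δ) * Real.log x) = x ^ (1 - δ) := by
    rw [Real.rpow_def_of_pos (by linarith), mul_comm]
  rw [this]

lemma IL_freq {δ C : ℝ} (hδ : 0 ≤ δ) (h : ∃ᶠ x in atTop, IL δ x ≤ C * Real.log x) :
    ∃ᶠ L in atTop, JL ((1 - δ) * L) L ≤ C * L := by
  have h2 := (h.and_eventually (eventually_ge_atTop 1)).mono (fun x hx => by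
    rw [IL_eq hδ hx.2] at hx; exact hx.1 :
      ∀ x : ℝ, (IL δ x ≤ C * Real.log x ∧ 1 ≤ x) → JL ((1 - δ) * Real.log x) (Real.log x) ≤ C * Real.log x)
  exact Real.tendsto_log_atTop.frequently h2

/-- **Main theorem.** -/
theorem main {δ : ℝ} (hδ : 0 < δ) (hδ1 : δ ≤ 1) {C : ℝ}
    (h : ∃ᶠ x in atTop, IL δ x ≤ C * Real.log x) :
    (∀ ρ : ℂ, riemannZeta ρ = 0 → 0 < ρ.re → ρ.re < 1 →
      ρ.re = 1 / 2 ∧ deriv riemannZeta ρ ≠ 0 ∧ δ ≤ C * ‖ρ * deriv riemannZeta ρ‖) ∧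
    ∀ (Z : Finset ℂ) (a : ℂ → ℂ) (S : ℝ), (∀ ρ ∈ Z, riemannZeta ρ = 0 ∧ 0 < ρ.re ∧ ρ.re < 1) →
      (∀ v : ℝ, ‖∑ ρ ∈ Z, a ρ * Complex.exp (-(ρ.im * v * Complex.I))‖ ≤ S) →
      ‖∑ ρ ∈ Z, a ρ / (ρ * deriv riemannZeta ρ)‖ ≤ C / δ * S := by
  have hf := IL_freq hδ.le h
  have hRH := L1_RH hδ hδ1 hf
  have hline : ∀ ρ : ℂ, riemannZeta ρ = 0 ∧ 0 < ρ.re ∧ ρ.re < 1 → ρ.re = 1 / 2 := by
    have hR : ∀ ρ : ℂ, riemannZeta ρ = 0 ∧ 0 < ρ.re ∧ ρ.re < 1 → ρ.re ≤ 1 / 2 := fun ρ hρ =>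
      (le_csSup zset_bdd ⟨ρ, hρ, rfl⟩).trans hRH
    intro ρ hρ
    refine le_antisymm (hR ρ hρ) ?_
    have h1 : riemannZeta (1 - ρ) = 0 ∧ 0 < (1 - ρ).re ∧ (1 - ρ).re < 1 := by
      refine ⟨?_, by simp; exact hρ.2.2, by simp; exact hρ.2.1⟩
      rw [riemannZeta_one_sub]
      · rw [hρ.1, mul_zero]
      · intro n hn
        have := hρ.2.1
        rw [hn] at this
        simp at this
        linarith [(Nat.cast_nonneg n : (0:ℝ) ≤ n)]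
      · rintro rfl
        have := hρ.2.2
        simp at this
    have := hR _ h1
    simp at this
    linarith
  have hsimple : ∀ ρ : ℂ, riemannZeta ρ = 0 ∧ 0 < ρ.re ∧ ρ.re < 1 → deriv riemannZeta ρ ≠ 0 := fun ρ hρ =>
    L1_simple hRH hδ hδ1 hf (hline ρ hρ) hρ.1
  have hb : ∀ (Z : Finset ℂ) (a : ℂ → ℂ) (S : ℝ), (∀ ρ ∈ Z, riemannZeta ρ = 0 ∧ 0 < ρ.re ∧ ρ.re < 1) →
      (∀ v : ℝ, ‖∑ ρ ∈ Z, a ρ * Complex.exp (-(ρ.im * v * Complex.I))‖ ≤ S) →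
      ‖∑ ρ ∈ Z, a ρ / (ρ * deriv riemannZeta ρ)‖ ≤ C / δ * S := by
    intro Z a S hZ hS
    have h2 := L1_bound hRH hδ hδ1 hf Z (fun ρ hρ => ⟨hline ρ (hZ ρ hρ), (hZ ρ hρ).1, hsimple ρ (hZ ρ hρ)⟩) a hS
    refine le_trans (le_of_eq ?_) h2
    congr 1
    refine Finset.sum_congr rfl fun ρ _ => ?_
    unfold ww
    rw [mul_one_div]
  refine ⟨fun ρ hz h0 h1 => ⟨hline ρ ⟨hz, h0, h1⟩, hsimple ρ ⟨hz, h0, h1⟩, ?_⟩, hb⟩
  have hd := hsimple ρ ⟨hz, h0, h1⟩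
  have hρ0 : ρ ≠ 0 := by rintro rfl; simp at h0
  have h3 := hb {ρ} (fun _ => 1) 1 (fun r hr => by
    rw [Finset.mem_singleton] at hr
    subst hr
    exact ⟨hz, h0, h1⟩) (fun v => by
      rw [Finset.sum_singleton, one_mul, Complex.norm_exp]
      simp)
  rw [Finset.sum_singleton, norm_div, norm_one, mul_one] at h3
  have h4 : 0 < ‖ρ * deriv riemannZeta ρ‖ := norm_pos_iff.2 (mul_ne_zero hρ0 hd)
  rw [div_le_div_iff₀ h4 hδ] at h3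
  linarith

end

end TH223.L1
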